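import Pool.Agent.J6H54.CH.Stm

/-!
# CH-17: class length of powers
-/

set_option autoImplicit false

namespace Pool.Agent.J6H18.CH17

open Pool.Agent.J6H54.CH Finset

variable {Λ : Type} [AddCommGroup Λ] {σ : Λ ≃ₗ[ℤ] Λ} {T : Finset (Λ × ℤ)}

/-- powers -/
def gp (σ : Λ ≃ₗ[ℤ] Λ) (g : Λ × ℤ) : ℕ → Λ × ℤ
  | 0 => (0, 0)
  | n + 1 => mul σ (gp σ g n) g

theorem pw_add (v : Λ) (l a d : ℕ) :
    pw σ v l (a + d) = pw σ v l a + (σ ^ ((l * a : ℕ) : ℤ)) (pw σ v l d) := by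
  unfold pw
  rw [Finset.sum_range_add, map_sum]
  congr 1
  refine Finset.sum_congr rfl fun i _ => ?_
  have e : ((l * (a + i) : ℕ) : ℤ) = ((l * a : ℕ) : ℤ) + ((l * i : ℕ) : ℤ) := by
    push_cast; ring
  rw [e, pow_add_apply]

theorem pw_zero (v : Λ) (l : ℕ) : pw σ v l 0 = 0 := by simp [pw]

theorem pw_one (v : Λ) (l : ℕ) : pw σ v l 1 = v := by simp [pw]

theorem gp_pw (v : Λ) (l d : ℕ) (N : ℕ) :
    gp σ (pw σ v l d, ((l * d : ℕ) : ℤ)) N =
      (pw σ v l (d * N), ((l * (d * N) : ℕ) : ℤ)) := by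
  induction N with
  | zero => simp [gp, pw_zero]
  | succ N ih =>
    rw [gp, ih]
    apply Prod.ext
    · rw [mul_fst]
      simp only
      rw [Nat.mul_succ, pw_add]
    · rw [mul_snd]
      simp only
      push_cast
      ring

theorem gp_conj {c P g : Λ × ℤ} (h : mul σ c P = mul σ g c) (N : ℕ) :
    mul σ c (gp σ P N) = mul σ (gp σ g N) c := by
  induction N with
  | zero => simp only [gp]; rw [mul_one', one_mul']
  | succ N ih =>
    simp only [gp]
    rw [← mul_assoc', ih, mul_assoc', h, ← mul_assoc']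

theorem len_gp (hT : Gen σ T) (g : Λ × ℤ) (N : ℕ) :
    len σ T (gp σ g N) ≤ N * len σ T g := by
  induction N with
  | zero => simp [gp, len_zero]
  | succ N ih =>
    have := len_mul hT (gp σ g N) g
    simp only [gp]
    rw [Nat.succ_mul]
    omega

theorem pw_box {p q : Λ → ℝ} {κ M C0 C : ℝ} (H : Hyp σ p q κ M C0) (hC : 0 ≤ C) {v : Λ} {l : ℕ}
    (hl : 1 ≤ l) (hv : v ∈ bx σ p q C l) (n : ℕ) : pw σ v l n ∈ bx σ p q (C / (1 - κ)) (l * n) := by
  have hκ : 0 < 1 - κ := by linarith [H.κ_lt]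
  have hB : 0 ≤ C / (1 - κ) := div_nonneg hC hκ.le
  have hBe : C + κ * (C / (1 - κ)) = C / (1 - κ) := by field_simp; ring
  have hκl : κ ^ l ≤ κ := by
    calc κ ^ l ≤ κ ^ 1 := pow_le_pow_of_le_one H.κ_pos.le H.κ_lt.le hl
      _ = κ := pow_one κ
  obtain ⟨hq, hp⟩ := (mem_bx H).1 hv
  refine (mem_bx H).2 ?_
  induction n with
  | zero =>
    constructor
    · rw [pw_zero, H.q_zero]; exact hB
    · rw [pw_zero, map_zero, H.p_zero]; exact hB
  | succ n ih =>
    obtain ⟨ih1, ih2⟩ := ih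
    constructor
    · have e : pw σ v l (n + 1) = v + (σ ^ (l : ℤ)) (pw σ v l n) := by
        rw [Nat.add_comm, pw_add, pw_one, mul_one]
      rw [e]
      have h1 := H.q_add v ((σ ^ (l : ℤ)) (pw σ v l n))
      have h2 := H.q_pow l (pw σ v l n)
      have h3 : κ ^ l * q (pw σ v l n) ≤ κ * (C / (1 - κ)) :=
        mul_le_mul hκl ih1 (H.q_nonneg _) H.κ_pos.le
      linarith
    · have e : (σ ^ (-((l * (n + 1) : ℕ) : ℤ))) (pw σ v l (n + 1)) =
          (σ ^ (-(l : ℤ))) ((σ ^ (-((l * n : ℕ) : ℤ))) (pw σ v l n)) + (σ ^ (-(l : ℤ))) v := by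
        have e1 : (-((l * (n + 1) : ℕ) : ℤ)) = -(l : ℤ) + -((l * n : ℕ) : ℤ) := by
          push_cast; ring
        rw [pw_add, pw_one, e1, pow_add_apply, map_add, map_add, pow_neg_pow]
      rw [e]
      have h1 := H.p_add ((σ ^ (-(l : ℤ))) ((σ ^ (-((l * n : ℕ) : ℤ))) (pw σ v l n)))
        ((σ ^ (-(l : ℤ))) v)
      have h2 := H.p_pow l ((σ ^ (-((l * n : ℕ) : ℤ))) (pw σ v l n))
      have h3 : κ ^ l * p ((σ ^ (-((l * n : ℕ) : ℤ))) (pw σ v l n)) ≤ κ * (C / (1 - κ)) :=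
        mul_le_mul hκl ih2 (H.p_nonneg _) H.κ_pos.le
      linarith

theorem key_pow {p q : Λ → ℝ} {κ M C0 C : ℝ} {K : ℕ} (H : Hyp σ p q κ M C0) (hC : 0 ≤ C)
    (hK : Key σ T p q (C / (1 - κ)) K) {v : Λ} {l : ℕ} (hl : 1 ≤ l) (hv : v ∈ bx σ p q C l)
    (n : ℕ) : n * len σ T (v, (l : ℤ)) ≤ len σ T (pw σ v l n, ((l * n : ℕ) : ℤ)) + n * K := by
  induction n with
  | zero => simp
  | succ n ih =>
    have hv1 : v ∈ bx σ p q (C / (1 - κ)) l := by
      have := pw_box H hC hl hv 1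
      rwa [pw_one, mul_one] at this
    have h := hK (l * n) l (pw σ v l n) v (pw_box H hC hl hv n) hv1
    have h1 : pw σ v l (n + 1) = pw σ v l n + (σ ^ ((l * n : ℕ) : ℤ)) v := by
      rw [pw_add, pw_one]
    rw [← h1, show l * n + l = l * (n + 1) from rfl] at h
    rw [Nat.succ_mul, Nat.succ_mul]
    omega

theorem m17 : S_pow := by
  intro Λ _ σ T p q κ M C0 C K H hT hC hK v l d hl hv
  set P : Λ × ℤ := (pw σ v l d, ((l * d : ℕ) : ℤ)) with hP
  have hne : {n | ∃ b, Cj σ P b ∧ len σ T b = n}.Nonempty :=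
    ⟨_, P, ⟨(0, 0), by rw [mul_one', one_mul']⟩, rfl⟩
  obtain ⟨g, ⟨c, hcg⟩, hlen⟩ := Nat.sInf_mem hne
  have hlen' : clen σ T P = len σ T g := hlen.symm
  rw [hlen']
  have main : ∀ N : ℕ, N * (d * len σ T (v, (l : ℤ))) ≤
      2 * len σ T c + N * (len σ T g + d * K) := by
    intro N
    have h1 := key_pow H hC hK hl hv (d * N)
    rw [← gp_pw, ← hP] at h1
    have h2 : gp σ P N = mul σ (inv σ c) (mul σ (gp σ g N) c) := by
      rw [← gp_conj hcg, ← mul_assoc', Pool.Agent.J6H54.CH.inv_mul', one_mul']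
    have h3 : len σ T (gp σ P N) ≤ 2 * len σ T c + N * len σ T g := by
      rw [h2]
      have h4 := len_mul hT (inv σ c) (mul σ (gp σ g N) c)
      have h5 := len_mul hT (gp σ g N) c
      have h6 := len_gp hT g N
      have h7 := len_inv hT c
      omega
    calc N * (d * len σ T (v, (l : ℤ))) = d * N * len σ T (v, (l : ℤ)) := by ring
      _ ≤ len σ T (gp σ P N) + d * N * K := h1
      _ ≤ 2 * len σ T c + N * len σ T g + d * N * K := by omega
      _ = 2 * len σ T c + N * (len σ T g + d * K) := by ring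
  by_contra hcon
  push_neg at hcon
  have h1 := main (2 * len σ T c + 1)
  have h2 : (2 * len σ T c + 1) * (len σ T g + d * K + 1) ≤
      (2 * len σ T c + 1) * (d * len σ T (v, (l : ℤ))) := Nat.mul_le_mul le_rfl hcon
  rw [Nat.mul_succ] at h2
  omega

end Pool.Agent.J6H18.CH17
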